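import Pool.Agent.Lib.MP_bee098_nt.Final

/-! Two-level block sequences: `2c` consecutive prime gaps `y_1, ..., y_{2c}` in one range and
`c` consecutive prime gaps `y_1 + y_{c+1}, ..., y_c + y_{2c}` in a far range. -/

open Pool.Agent.Lib.MP_bee098_nt

namespace Pool.Agent.FS.EveryC

section Blocks

variable {M M' : Type} [Add M] [Add M']

theorem blk_right {y z : List M} (h : y ∈ blk z) (w : List M) : y ∈ blk (w ++ z) := by
  induction w with
  | nil => exact h
  | cons a w ih => exact Or.inl (Or.inl ih)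

theorem blk_append {y z y' z' : List M} (h : y ∈ blk z) (h' : y' ∈ blk z') :
    y ++ y' ∈ blk (z ++ z') := by
  induction z generalizing y with
  | nil =>
    rw [show y = [] from h]
    exact h'
  | cons a z ih =>
    rcases h with (h | ⟨y, h, rfl⟩) | ⟨y, h, rfl⟩
    · exact Or.inl (Or.inl (ih h))
    · exact Or.inl (Or.inr ⟨_, ih h, rfl⟩)
    · cases y with
      | nil => exact Or.inl (Or.inl (ih h))
      | cons b y => exact Or.inr ⟨_, ih h, rfl⟩

theorem map_mrg {f : M → M'} (hf : ∀ a b, f (a + b) = f a + f b) (a : M) (y : List M) :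
    (mrg a y).map f = mrg (f a) (y.map f) := by
  cases y with
  | nil => rfl
  | cons b y => simp only [mrg, List.map_cons, hf]

theorem blk_map {f : M → M'} (hf : ∀ a b, f (a + b) = f a + f b) {y z : List M}
    (h : y ∈ blk z) : y.map f ∈ blk (z.map f) := by
  induction z generalizing y with
  | nil =>
    rw [show y = [] from h]
    exact rfl
  | cons a z ih =>
    rcases h with (h | ⟨y, h, rfl⟩) | ⟨y, h, rfl⟩
    · exact Or.inl (Or.inl (ih h))
    · exact Or.inl (Or.inr ⟨_, ih h, rfl⟩)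
    · exact Or.inr ⟨_, ih h, (map_mrg hf a y).symm⟩

theorem blk_of_map {f : M → M'} (hf : ∀ a b, f (a + b) = f a + f b) {z : List M} {y : List M'}
    (h : y ∈ blk (z.map f)) : ∃ x ∈ blk z, y = x.map f := by
  induction z generalizing y with
  | nil => exact ⟨[], rfl, h⟩
  | cons a z ih =>
    rcases h with (h | ⟨y, h, rfl⟩) | ⟨y, h, rfl⟩
    · obtain ⟨x, h1, rfl⟩ := ih h
      exact ⟨x, Or.inl (Or.inl h1), rfl⟩
    · obtain ⟨x, h1, rfl⟩ := ih h
      exact ⟨a :: x, Or.inl (Or.inr ⟨x, h1, rfl⟩), rfl⟩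
    · obtain ⟨x, h1, rfl⟩ := ih h
      exact ⟨mrg a x, Or.inr ⟨x, h1, rfl⟩, (map_mrg hf a x).symm⟩

end Blocks

/-- Disjoint supports, and the top of `b` is above the support of `a`. -/
def Rel (a b : ℕ → ℕ) : Prop := (∀ i, a i = 0 ∨ b i = 0) ∧ Top a b

theorem rel_add {a b c : ℕ → ℕ} (h : Rel a c) (h' : Rel b c) : Rel (a + b) c := by
  obtain ⟨h1, i, h2, h3⟩ := h
  obtain ⟨h4, j, h5, h6⟩ := h'
  refine ⟨fun t => ?_, max i j, ?_, fun t ht => ?_⟩
  · have := h1 t
    have := h4 t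
    simp only [Pi.add_apply]
    omega
  · rcases le_total i j with h | h
    · rwa [max_eq_right h]
    · rwa [max_eq_left h]
  · rw [Pi.add_apply, h3 t (le_of_max_le_left ht), h6 t (le_of_max_le_right ht)]

theorem rs_rel {N : ℕ} {z : List (ℕ → ℕ)} {b : ℕ → ℕ} (h1 : z.Pairwise Rel)
    (h2 : ∀ a ∈ z, Ok N a) (h3 : ∀ a ∈ z, Rel b a) (h4 : ∀ i, b i ≤ 1) (h5 : ∀ i ≥ N, b i = 0) :
    (rs b z).Pairwise Top ∧ ∀ e ∈ rs b z, Ok N e ∧ Top b e := by
  induction z generalizing b with
  | nil => exact ⟨List.Pairwise.nil, fun e he => absurd he List.not_mem_nil⟩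
  | cons a z ih =>
    obtain ⟨a1, a2, a3⟩ := h2 a List.mem_cons_self
    obtain ⟨s, i, hi, hi'⟩ := h3 a List.mem_cons_self
    rw [List.pairwise_cons] at h1
    have b1 : ∀ i, (b + a) i ≤ 1 := fun i => by
      have := s i
      have := h4 i
      have := a2 i
      simp only [Pi.add_apply]
      omega
    have b2 : ∀ i ≥ N, (b + a) i = 0 := fun i hi => by rw [Pi.add_apply, h5 i hi, a3 i hi]
    obtain ⟨i1, i2⟩ := ih (b := b + a) h1.2 (fun c hc => h2 c (List.mem_cons_of_mem _ hc))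
      (fun c hc => rel_add (h3 c (List.mem_cons_of_mem _ hc)) (h1.1 c hc)) b1 b2
    refine ⟨List.pairwise_cons.2 ⟨fun e he => (i2 e he).2, i1⟩, ?_⟩
    rintro e (_ | ⟨_, he⟩)
    · exact ⟨⟨fun h => hi (Nat.add_eq_zero_iff.1 (congrFun h i)).2, b1, b2⟩, i,
        fun h => hi (Nat.add_eq_zero_iff.1 h).2, hi'⟩
    · obtain ⟨j, h6, h7⟩ := (i2 e he).2
      exact ⟨(i2 e he).1, j, h6, fun i' h => (Nat.add_eq_zero_iff.1 (h7 i' h)).1⟩

theorem Gp_append {M : Type} {g : M → ℕ} {i : ℕ} {l l' : List M} (h : Gp g i (l ++ l')) :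
    Gp g i l ∧ Gp g (i + l.length) l' := by
  induction l generalizing i with
  | nil => exact ⟨trivial, h⟩
  | cons a l ih =>
    obtain ⟨h1, h2⟩ := ih h.2
    refine ⟨⟨h.1, h1⟩, ?_⟩
    rwa [List.length_cons, add_comm l.length, ← add_assoc]

theorem three {M : Type} [Add M] {g : M → ℕ} (hg : ∀ a b, g (a + b) = g a + g b)
    {p : List (M × M)} {i i' i'' : ℕ} (h : Gp g i (p.map Prod.fst))
    (h' : Gp g i' (p.map Prod.snd)) (h'' : Gp g i'' (p.map fun a => a.1 + a.2)) :
    ∀ j ≤ p.length, Nat.nth Nat.Prime (i + j) + Nat.nth Nat.Prime (i' + j) + Nat.nth Nat.Prime i''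
      = Nat.nth Nat.Prime i + Nat.nth Nat.Prime i' + Nat.nth Nat.Prime (i'' + j) := by
  induction p generalizing i i' i'' with
  | nil =>
    intro j hj
    rw [Nat.le_zero.1 hj]
    rfl
  | cons a p ih =>
    rintro (_ | j) hj
    · rfl
    · have h1 := ih h.2 h'.2 h''.2 j (Nat.le_of_succ_le_succ hj)
      have h2 : _ = _ + g a.1 := h.1
      have h3 : _ = _ + g a.2 := h'.1
      have h4 : _ = _ + g (a.1 + a.2) := h''.1
      rw [hg] at h4
      rw [show i + (j + 1) = i + 1 + j by omega, show i' + (j + 1) = i' + 1 + j by omega,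
        show i'' + (j + 1) = i'' + 1 + j by omega]
      omega

theorem two_level {N : ℕ} {p : List ((ℕ → ℕ) × (ℕ → ℕ))}
    (h1 : (p.map Prod.fst ++ p.map Prod.snd).Pairwise Sep)
    (h2 : ∀ a ∈ p.map Prod.fst ++ p.map Prod.snd, Ok N a) :
    (p.map fun a => a.1 + a.2).Pairwise Rel ∧ ∀ a ∈ p.map fun a => a.1 + a.2, Ok N a := by
  obtain ⟨s1, s2, s3⟩ := List.pairwise_append.1 h1
  have s4 : ∀ a ∈ p, ∀ b ∈ p, Sep a.1 b.2 := fun a ha b hb =>
    s3 _ (List.mem_map_of_mem ha) _ (List.mem_map_of_mem hb)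
  have o1 : ∀ a ∈ p, Ok N a.1 := fun a ha =>
    h2 _ (List.mem_append_left _ (List.mem_map_of_mem ha))
  have o2 : ∀ a ∈ p, Ok N a.2 := fun a ha =>
    h2 _ (List.mem_append_right _ (List.mem_map_of_mem ha))
  rw [List.pairwise_map] at s1 s2 ⊢
  refine ⟨List.Pairwise.imp_of_mem (fun {a b} ha hb h => ?_) (s1.and s2), fun e he => ?_⟩
  · obtain ⟨i, hi⟩ := Function.ne_iff.1 (o2 b hb).1
    have hi' : b.2 i ≠ 0 := hi
    refine ⟨fun t => ?_, i, fun h => hi' (Nat.add_eq_zero_iff.1 h).2, fun t ht => ?_⟩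
    · have := h.1 t t
      have := h.2 t t
      have := s4 a ha b hb t t
      have := s4 b hb a ha t t
      simp only [Pi.add_apply]
      omega
    · have := h.2 t i
      have := s4 a ha b hb t i
      simp only [Pi.add_apply]
      omega
  · obtain ⟨a, ha, rfl⟩ := List.mem_map.1 he
    obtain ⟨i, hi⟩ := Function.ne_iff.1 (o2 a ha).1
    refine ⟨fun h => hi (Nat.add_eq_zero_iff.1 (congrFun h i)).2, fun t => ?_, fun t ht => ?_⟩
    · have := s4 a ha a ha t t
      have := (o1 a ha).2.1 t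
      have := (o2 a ha).2.1 t
      simp only [Pi.add_apply]
      omega
    · rw [Pi.add_apply, (o1 a ha).2.2 t ht, (o2 a ha).2.2 t ht]

theorem runs_fixed (c e : ℕ) : ∃ i i', i + e < i' ∧ ∀ j ≤ c,
    Nat.nth Nat.Prime (i + j) + Nat.nth Nat.Prime (i + c + j) + Nat.nth Nat.Prime i'
      = Nat.nth Nat.Prime i + Nat.nth Nat.Prime (i + c) + Nat.nth Nat.Prime (i' + j) := by
  obtain ⟨k, hk⟩ := stage_data (2 * c + 1) e
  choose x W X X' D h1 h2 using hk
  have hg : ∀ N (a b : ℕ → ℕ), W N * val N (x N) (a + b)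
      = W N * val N (x N) a + W N * val N (x N) b := fun N a b => by rw [val_add, mul_add]
  obtain ⟨N, y, y1, y2⟩ := two_colourings (2 * c) (2 * k) (fun s N y => if s then
      ∃ i, Gp (fun a => W N * val N (x N) a) i y ∧ Nat.nth Nat.Prime i ≤ 16 * X N + D N
      else ∃ p : List ((ℕ → ℕ) × (ℕ → ℕ)), y = p.map Prod.fst ++ p.map Prod.snd ∧
        ∃ i, Gp (fun a => W N * val N (x N) a) i (p.map fun a => a.1 + a.2) ∧
          X' N ≤ Nat.nth Nat.Prime i + D N) (by
    intro s N z z1 z2 z3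
    have z4 : ∀ a ∈ z, Ok N a := fun a ha => ⟨(z3 a ha).1.1, (z3 a ha).1.2.1, (z3 a ha).2⟩
    obtain ⟨p, p1, rfl⟩ : ∃ p : List ((ℕ → ℕ) × (ℕ → ℕ)), p.length = k ∧
        z = p.map Prod.fst ++ p.map Prod.snd := by
      have e1 : (z.take k).length = k := by rw [List.length_take]; omega
      have e2 : (z.drop k).length = k := by rw [List.length_drop]; omega
      refine ⟨(z.take k).zip (z.drop k), by rw [List.length_zip]; omega, ?_⟩
      rw [List.map_fst_zip (by omega), List.map_snd_zip (by omega), List.take_append_drop]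
    cases s with
    | true =>
      obtain ⟨r1, r2⟩ := rs_top (b := 0) (List.pairwise_append.1 z2).2.1
        (fun a ha => z4 a (List.mem_append_right _ ha)) (fun a _ i i' h => absurd rfl h)
        (fun _ => Nat.zero_le _) (fun _ _ => rfl)
      obtain ⟨g1, g2, g3, -⟩ := h2 N (rs 0 (p.map Prod.snd))
        (by rw [length_rs, List.length_map, p1]) r1 fun a ha => (r2 a ha).1
      obtain ⟨n, i, s, s1, s2, s3, -, s4⟩ := good_chain g1 g2 g3 le_rfl (Nat.succ_pos _)
      obtain ⟨y, y1, rfl⟩ := blk_rs add_assoc s1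
      rw [length_rs] at s2
      cases y with
      | nil => exact absurd s2 (Nat.succ_ne_zero _).symm
      | cons a y =>
        exact ⟨y, blk_right (blk_tail y1) _, Nat.succ_injective s2, i,
          Gp_rs (hg N) s3.1 s3.2, s4⟩
    | false =>
      obtain ⟨t1, t2⟩ := two_level z2 z4
      obtain ⟨r1, r2⟩ := rs_rel (b := 0) t1 t2 (fun a ha => by
        obtain ⟨i, hi⟩ := Function.ne_iff.1 (t2 a ha).1
        exact ⟨fun _ => Or.inl rfl, i, hi, fun _ _ => rfl⟩) (fun _ => Nat.zero_le _) (fun _ _ => rfl)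
      obtain ⟨g1, g2, -, g3⟩ := h2 N (rs 0 (p.map fun a => a.1 + a.2))
        (by rw [length_rs, List.length_map, p1]) r1 fun a ha => (r2 a ha).1
      obtain ⟨n, i, s, s1, s2, s3, s4, -⟩ := good_chain g1 g2 g3 (m' := c + 1) (by omega)
        (Nat.succ_pos _)
      obtain ⟨y, y1, rfl⟩ := blk_rs add_assoc s1
      rw [length_rs] at s2
      cases y with
      | nil => exact absurd s2 (Nat.succ_ne_zero _).symm
      | cons a y =>
        obtain ⟨q, q1, q2⟩ := blk_of_map (f := fun a : (ℕ → ℕ) × (ℕ → ℕ) => a.1 + a.2)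
          (fun a b => add_add_add_comm _ _ _ _) (blk_tail y1)
        have q3 : y = q.map fun a => a.1 + a.2 := q2
        have q4 : q.length = c := by
          have := Nat.succ_injective s2
          rwa [q3, List.length_map] at this
        refine ⟨q.map Prod.fst ++ q.map Prod.snd,
          blk_append (blk_map (fun _ _ => rfl) q1) (blk_map (fun _ _ => rfl) q1),
          by rw [List.length_append, List.length_map, List.length_map]; omega, q, rfl, i, ?_, s4⟩
        rw [← q3]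
        exact Gp_rs (hg N) s3.1 s3.2)
  obtain ⟨i, c1, c2⟩ := y2 true
  obtain ⟨p, rfl, i', c3, c4⟩ := y2 false
  have p1 : p.length = c := by
    rw [List.length_append, List.length_map, List.length_map] at y1
    omega
  obtain ⟨c5, c6⟩ := Gp_append c1
  rw [List.length_map, p1] at c6
  refine ⟨i, i', not_le.1 fun h => ?_, p1 ▸ three (hg N) c5 (p1 ▸ c6) c3⟩
  have hm : StrictMono (Nat.nth Nat.Prime) := Nat.nth_strictMono Nat.infinite_setOfPred_prime
  have h3 := (hm.monotone h).trans (nth_add_le i e)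
  have h4 := Nat.mul_le_mul_left (2 ^ e) c2
  have h5 := h1 N
  omega

end Pool.Agent.FS.EveryC
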